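import Pool.Agent.X116.CwE

/-!
# MP_4881ff_pr, Q1 for `d = 1` and for every `d ≥ 4`

The walk: `step b u 0 = u 0`, `step b u (n+1) = u (n+1)` if `b (n+1) = true` and `step b u n`
otherwise; `step b u n` is the step `Y_{n+1}` of the problem.  Under `law d p` the `u n` are uniform on
the `2 d` signed unit vectors (coded by `Fin d × Bool`, see `vec`), the coin `b n` (used for
`Y_{n+1}`) is `true` with probability `p (n+1)`, and all of these are independent.
-/

namespace Pool.Agent.Results.MP_4881ff_pr.OneAndFourUp

open Pool.Agent.X116.Cw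

/-- For `d ≥ 4` every conservative random walk is strongly transient; for `d = 1` the walk is
strongly transient exactly when `∑ p n < ∞`; so for `d = 1` and for all `d ≥ 4` strong transience
is monotone in `(p n)`. -/
theorem result :
    (∀ (d : ℕ) [NeZero d], 4 ≤ d → ∀ p : ℕ → Set.Icc (0:ℝ) 1, StronglyTransient d p) ∧
    (∀ p : ℕ → Set.Icc (0:ℝ) 1, StronglyTransient 1 p ↔ Summable (fun n => (p n : ℝ))) ∧
    (∀ (d : ℕ) [NeZero d], (d = 1 ∨ 4 ≤ d) → ∀ p p' : ℕ → Set.Icc (0:ℝ) 1,
      (∀ n ≥ 2, (p' n : ℝ) ≤ p n) → StronglyTransient d p → StronglyTransient d p') := by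
  refine ⟨st_four, st_one_iff, ?_⟩
  intro d _ hd p p' hpp h
  rcases hd with rfl | hd
  · have hs : Summable (fun n => (p n : ℝ)) := by
      have e : StronglyTransient 1 p := by convert h
      exact (st_one_iff p).1 e
    apply st_of_summable
    rw [← summable_nat_add_iff 2] at hs ⊢
    exact Summable.of_nonneg_of_le (fun n => (p' (n + 2)).2.1) (fun n => hpp (n + 2) (by omega)) hs
  · exact st_four d hd p'

end Pool.Agent.Results.MP_4881ff_pr.OneAndFourUp
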